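import Pool.Agent.LibTFV.Variety

set_option autoImplicit false

namespace Pool.Agent.Results.MP_8149cf_al.NotFinitelyBased

open Pool.Agent.LibTFV

/-- There is a variety of groups, defined by a set `L` of laws, such that
* its relatively free groups `FreeGroup X ⧸ verbalSubgroup L (FreeGroup X)` are torsion-free,
* it is contained in the product variety of the variety of nilpotent groups of class at most two
  with itself, and
* it cannot be defined by a finite set of laws. -/
theorem result :
    ∃ L : Set (FreeGroup ℕ),
      (∀ (X : Type) (g : FreeGroup X ⧸ verbalSubgroup L (FreeGroup X)), IsOfFinOrder g → g = 1) ∧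
      (∀ (G : Type) [Group G], Satisfies L G →
        ∃ (N : Subgroup G) (_ : N.Normal),
          NilpotentOfClassLE 2 N ∧ NilpotentOfClassLE 2 (G ⧸ N)) ∧
      ¬ ∃ L' : Set (FreeGroup ℕ), L'.Finite ∧
        ∀ (G : Type) [Group G], Satisfies L' G ↔ Satisfies L G :=
  main

end Pool.Agent.Results.MP_8149cf_al.NotFinitelyBased
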